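import Pool.Agent.LeoD.AlgStmts
import Pool.Agent.Helper61_LeoG.Bsg
import Pool.Agent.Helper61_LeoD.LatCore

/-!
# Squad LEOD, module LAT: the lattice
-/

set_option autoImplicit false

open NumberField IsDedekindDomain Module
open Pool.Agent.LeoK.H61 Pool.Agent.LeoG.H61

namespace Pool.Agent.LeoD.H61

/-- `y 𝔠 ⊆ 𝓞` implies `b y ∈ 𝔟` -/
lemma inv_mem {k : Type} [Field k] [NumberField k] (B : BFr k) (hb : B.b ≠ 0) {y : k}
    (hy : InvI B.cc y) : ∃ β ∈ B.bb, (B.b : k) * y = (β : k) := by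
  have hbO : (B.b : 𝓞 k) ≠ 0 := Nat.cast_ne_zero.2 hb
  have hcc0 : B.cc ≠ ⊥ := by
    intro h
    have h1 := B.mul
    rw [h, Ideal.mul_bot] at h1
    exact hbO (Ideal.span_singleton_eq_bot.1 h1.symm)
  have hbc : (B.b : 𝓞 k) ∈ B.cc := by
    have h1 : (B.b : 𝓞 k) ∈ B.bb * B.cc := by
      rw [B.mul]
      exact Ideal.mem_span_singleton_self _
    exact (Ideal.mul_le_right : B.bb * B.cc ≤ B.cc) h1
  obtain ⟨β, hβ⟩ := hy _ hbc
  refine ⟨β, ?_, ?_⟩
  · have h1 : Ideal.span {β} * B.cc ≤ B.bb * B.cc := by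
      rw [Ideal.span_singleton_mul_le_iff]
      intro i hi
      obtain ⟨j, hj⟩ := hy i hi
      rw [B.mul, Ideal.mem_span_singleton]
      refine ⟨j, ?_⟩
      apply RingOfIntegers.ext
      show (β : k) * (i : k) = ((B.b : 𝓞 k) : k) * (j : k)
      rw [← hβ, ← hj]
      ring
    have h2 : B.bb * B.cc ∣ Ideal.span {β} * B.cc := Ideal.dvd_iff_le.2 h1
    have h3 := (mul_dvd_mul_iff_right (by simpa using hcc0)).1 h2
    exact (Ideal.dvd_span_singleton).1 h3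
  · rw [← hβ]
    have h1 : ((B.b : 𝓞 k) : k) = (B.b : k) := map_natCast (algebraMap (𝓞 k) k) B.b
    rw [h1]
    ring


theorem lat (hqrd : QrdStmt) : LatStmt := by
  intro k K _ _ _ _ _ B m s c hE hF t ν hνt hν3 hν0
  obtain ⟨h1, q, hq, hq4, hw⟩ := hqrd k K B m s c hE hF
  have hK := hE.two
  have hs0 : (s : K) ≠ 0 := by
    intro h
    apply hE.nsq 0
    apply (algebraMap k K).injective
    rw [← hE.sq, h, map_pow, map_zero]
  have hc := hE.conj
  have hcc : ∀ z : K, c (c z) = z := conj_conj hK hs0 hc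
  have hb : B.b ≠ 0 := by
    intro h
    have := B.cop
    rw [h] at this
    norm_num at this
  have hbO : (B.b : 𝓞 k) ≠ 0 := Nat.cast_ne_zero.2 hb
  have hbk : ((B.b : 𝓞 k) : k) = (B.b : k) := map_natCast (algebraMap (𝓞 k) k) B.b
  have hbK : (B.b : K) ≠ 0 := Nat.cast_ne_zero.2 hb
  have hjb : algebraMap k K ((B.b : 𝓞 k) : k) = (B.b : K) := by rw [hbk, map_natCast]
  have hbb : (B.b : 𝓞 k) ∈ B.bb := by
    have h1 : (B.b : 𝓞 k) ∈ B.bb * B.cc := by
      rw [B.mul]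
      exact Ideal.mem_span_singleton_self _
    exact (Ideal.mul_le_left : B.bb * B.cc ≤ B.bb) h1
  obtain ⟨a₀, ha₀⟩ := hν3
  -- the ring homomorphism
  obtain ⟨j, hj⟩ : ∃ j : 𝓞 k →+* K, ∀ r, j r = algebraMap k K (r : k) :=
    ⟨(algebraMap k K).comp (algebraMap (𝓞 k) k), fun r => rfl⟩
  have hjinj : Function.Injective j := by
    intro x y hxy
    rw [hj, hj] at hxy
    exact RingOfIntegers.ext ((algebraMap k K).injective hxy)
  obtain ⟨S, hS⟩ : ∃ S : Subring K, ∀ x, x ∈ S ↔ ∃ u : 𝓞 K, (u : K) = x :=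
    ⟨(algebraMap (𝓞 K) K).range, fun x => Iff.rfl⟩
  obtain ⟨U, V, X, Y, X', Y', hU, hV, hUV, hXY, hXY'⟩ := lat_core (R := 𝓞 k) (F := K) two_ne_zero j
    hjinj S (fun r => (hS _).2 ⟨algebraMap (𝓞 k) (𝓞 K) r, by rw [hj]; rfl⟩) (c : K ≃+* K) hcc
    (fun r => by rw [hj]; exact c.commutes _) (by
      intro x hx
      obtain ⟨u, rfl⟩ := (hS x).1 hx
      exact (hS _).2 ⟨RingOfIntegers.mapRingEquiv (c : K ≃+* K) u, rfl⟩) (by
      intro x hx h
      obtain ⟨u, rfl⟩ := (hS x).1 hx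
      obtain ⟨y, hy⟩ := int_fixed hK hs0 hc u h
      exact ⟨y, by rw [hj]; exact hy⟩) (s : K) hs0 hc (B.b : 𝓞 k) hbO B.bb B.cc B.mul hbb q hq
    ((algebraMap k K (q : k) + s) / 2) (by rw [hj]; ring) (by
      intro β hβ
      have h2 : InvI B.cc ((β : k) / (B.b : k)) := by
        intro i hi
        have h3 : β * i ∈ Ideal.span {(B.b : 𝓞 k)} := by
          rw [← B.mul]
          exact Ideal.mul_mem_mul hβ hi
        obtain ⟨g, hg⟩ := Ideal.mem_span_singleton.1 h3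
        refine ⟨g, ?_⟩
        have h4 : (β : k) * (i : k) = (B.b : k) * (g : k) := by
          rw [← hbk]
          exact congrArg (fun x : 𝓞 k => (x : k)) hg
        have h5 : (B.b : k) ≠ 0 := Nat.cast_ne_zero.2 hb
        field_simp
        linear_combination h4
      obtain ⟨w, hw'⟩ := hw _ h2
      refine ⟨(w : K), (hS _).2 ⟨w, rfl⟩, ?_⟩
      rw [hw', hj, hj, hjb, map_div₀, map_natCast]
      field_simp) (by
      intro x hx
      obtain ⟨u, rfl⟩ := (hS x).1 hx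
      obtain ⟨y, hy, hy'⟩ := h1 u
      obtain ⟨β, hβ, hβ'⟩ := inv_mem B hb hy
      refine ⟨β, hβ, ?_⟩
      rw [hj, hj, hjb, ← hβ', map_mul, map_mul, map_natCast, map_ofNat]
      show 3 * (B.b : K) * ((u : K) - c (u : K)) = _
      rw [hy']
      ring) (t : K) ((hS _).2 ⟨t, rfl⟩) ν a₀ hν0 (by rw [hj]; exact hνt) (by rw [← ha₀]; ring)
  refine ⟨U, V, X, Y, X', Y', ?_, ?_, ?_, ?_, ?_⟩
  · obtain ⟨u, hu, hu'⟩ := hU
    obtain ⟨u', rfl⟩ := (hS u).1 hu
    exact ⟨u', hu'⟩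
  · intro β hβ
    obtain ⟨v, hv, hv'⟩ := hV β hβ
    obtain ⟨v', rfl⟩ := (hS v).1 hv
    exact ⟨v', by rw [← hj]; exact hv'⟩
  · rw [hj, hj, hjb] at hUV
    exact hUV
  · rw [hj, hj, hj, hjb] at hXY
    exact hXY
  · rw [hj, hj, hj, hjb] at hXY'
    exact hXY'

end Pool.Agent.LeoD.H61
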