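import Pool.Agent.Helper61_LeoK.Bas

/-!
# Squad LEOD, module LATI: abstract core for ideals

`R` is a Dedekind domain, `F` a field with an involution `c`, `S` a ring of integers of `F`,
`𝔟 𝔠 = (b)`, `w = (q + s) / 2`, the order is `{x : b (x - c x) ∈ 𝔟 s}`.
-/

set_option autoImplicit false

open Pool.Agent.LeoK.H61

namespace Pool.Agent.LeoD.H61

theorem lati_core {R F : Type} [CommRing R] [IsDomain R] [IsDedekindDomain R] [Field F]
    (h2F : (2 : F) ≠ 0) (j : R →+* F) (hj : Function.Injective j) (S : Subring F)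
    (hjS : ∀ r, j r ∈ S) (c : F ≃+* F) (hcc : ∀ z, c (c z) = z)
    (hcj : ∀ r, c (j r) = j r) (hcS : ∀ x ∈ S, c x ∈ S)
    (hfix : ∀ x ∈ S, c x = x → ∃ r, j r = x) (s : F) (hs0 : s ≠ 0) (hcs : c s = -s)
    (b : R) (hb0 : b ≠ 0) (bb cc : Ideal R) (hbc : bb * cc = Ideal.span {b}) (hbb : b ∈ bb)
    (q : R) (hq : q ∈ cc) (w : F) (hw : 2 * w = j q + s)
    (hwS : ∀ β ∈ bb, ∃ g ∈ S, j b * g = j β * w)
    (h3 : ∀ x ∈ S, ∃ β ∈ bb, 3 * j b * (x - c x) = j β * s)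
    (T : Set F) (hT0 : (0 : F) ∈ T) (hTa : ∀ x ∈ T, ∀ y ∈ T, x + y ∈ T)
    (hTm : ∀ g ∈ S, ∀ x ∈ T, g * x ∈ T) (hTS : ∀ x ∈ T, x ∈ S) (ν a₀ : R) (hν : ν ≠ 0)
    (hind : ∀ P : F → Prop, (∀ x ∈ T, ∀ x' ∈ T, P (x * c x')) →
      (∀ a b, P a → P b → P (a + b)) → P (j ν)) (hν3 : ν = 1 + 3 * a₀) :
    ∃ (U V : F) (X Y X' Y' : R), U ∈ T ∧ (∀ β ∈ bb, j β * V ∈ T) ∧
      j b * (U * c V - V * c U) = j ν * s ∧ 2 * j b * U = j X + j Y * s ∧
      2 * j b ^ 2 * V = j X' + j Y' * s := by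
  classical
  have inj0 : ∀ r : R, r ≠ 0 → j r ≠ 0 := fun r hr => (map_ne_zero_iff j hj).2 hr
  have hB0 := inj0 b hb0
  have hN0 := inj0 ν hν
  have hνT : j ν ∈ T := by
    refine hind (fun x => x ∈ T) ?_ (fun a b ha hb => hTa a ha b hb)
    intro x hx x' hx'
    show x * c x' ∈ T
    rw [mul_comm]
    exact hTm _ (hcS _ (hTS _ hx')) _ hx
  have hbb0 : bb ≠ ⊥ := by
    rintro rfl
    exact hb0 (by simpa using hbb)
  have hcw : c w = w - s := by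
    have h1 := congrArg c hw
    rw [map_mul, map_add, hcj, hcs, map_ofNat] at h1
    have h5 : (2 : F) * c w = 2 * (w - s) := by linear_combination h1 - hw
    exact mul_left_cancel₀ h2F h5
  have h3S : (3 : F) ∈ S := by
    have h1 := hjS 3
    rwa [map_ofNat] at h1
  -- the set `I`
  obtain ⟨I, hI⟩ : ∃ I : F → Prop, ∀ x, I x ↔ (x ∈ T ∧
      ∃ β ∈ bb, j b * (x - c x) = j β * s) := ⟨_, fun x => Iff.rfl⟩
  have hIadd : ∀ x y, I x → I y → I (x + y) := by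
    intro x y hx hy
    obtain ⟨hu, β, hβ, hβ'⟩ := (hI x).1 hx
    obtain ⟨hv, γ, hγ, hγ'⟩ := (hI y).1 hy
    refine (hI _).2 ⟨hTa _ hu _ hv, β + γ, bb.add_mem hβ hγ, ?_⟩
    rw [map_add, map_add]
    linear_combination hβ' + hγ'
  have hImul : ∀ (r : R) (x), I x → I (j r * x) := by
    intro r x hx
    obtain ⟨hu, β, hβ, hβ'⟩ := (hI x).1 hx
    refine (hI _).2 ⟨hTm _ (hjS r) _ hu, r * β, bb.mul_mem_left _ hβ, ?_⟩
    rw [map_mul, map_mul, hcj]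
    linear_combination j r * hβ'
  have hIS : ∀ x, I x → x ∈ S := by
    intro x hx
    exact hTS x ((hI x).1 hx).1
  -- decomposition
  have hdec : ∀ x ∈ S, ∀ β ∈ bb, j b * (x - c x) = j β * s →
      ∃ p : R, j b * x = j b * j p + j β * w := by
    intro x hx β hβ h
    obtain ⟨g, hg, hg'⟩ := hwS β hβ
    obtain ⟨p, hp⟩ := hfix (x - g) (S.sub_mem hx hg) (by
      apply mul_left_cancel₀ hB0
      have h1 := congrArg c hg'
      rw [map_mul, map_mul, hcj, hcj, hcw] at h1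
      rw [map_sub]
      linear_combination hg' - h1 - h)
    refine ⟨p, ?_⟩
    rw [hp]
    linear_combination hg'
  -- `q β ∈ (b)`
  have hqb : ∀ β ∈ bb, ∃ g : R, q * β = b * g := by
    intro β hβ
    have h1 : β * q ∈ bb * cc := Ideal.mul_mem_mul hβ hq
    rw [hbc, Ideal.mem_span_singleton] at h1
    obtain ⟨g, hg⟩ := h1
    exact ⟨g, by rw [← hg]; ring⟩
  -- multiplication by `(γ / b) w`
  have hmulw : ∀ x, I x → ∀ (γ : R), γ ∈ bb → ∀ g ∈ S, j b * g = j γ * w → I (g * x) ∧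
      ∀ (β p : R), β ∈ bb → j b * (x - c x) = j β * s → j b * x = j b * j p + j β * w →
        ∃ e : R, q * γ = b * e ∧ j b * (g * x - c (g * x)) = j (γ * p + e * β) * s := by
    intro x hx γ hγ g hg hg'
    obtain ⟨e, he⟩ := hqb γ hγ
    have key : ∀ (β p : R), β ∈ bb → j b * (x - c x) = j β * s →
        j b * x = j b * j p + j β * w → j b * (g * x - c (g * x)) = j (γ * p + e * β) * s := by
      intro β p hβ hβ' hp
      have h1 := congrArg c hg'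
      rw [map_mul, map_mul, hcj, hcj, hcw] at h1
      have h2 := congrArg j he
      rw [map_mul, map_mul] at h2
      rw [map_mul, map_add, map_mul, map_mul]
      apply mul_left_cancel₀ hB0
      -- b² (g x - cg cx)
      linear_combination (j b * x) * hg' - (j b * c x) * h1 + (j γ * (w - s)) * hβ' +
        (j γ * s) * hp + (j β * s) * h2 + (j γ * j β * s) * hw
    obtain ⟨hu, β, hβ, hβ'⟩ := (hI x).1 hx
    obtain ⟨p, hp⟩ := hdec x (hIS x hx) β hβ hβ'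
    refine ⟨(hI _).2 ⟨hTm _ hg _ hu, γ * p + e * β,
      bb.add_mem (bb.mul_mem_right _ hγ) (bb.mul_mem_left _ hβ), key β p hβ hβ' hp⟩, ?_⟩
    intro β' p' h1 h2 h3
    exact ⟨e, he, key β' p' h1 h2 h3⟩
  -- the ideals
  obtain ⟨n, hn⟩ : ∃ n : Ideal R, ∀ r, r ∈ n ↔ I (j r) := by
    refine ⟨⟨⟨⟨{r | I (j r)}, ?_⟩, ?_⟩, ?_⟩, fun r => Iff.rfl⟩
    · intro x y hx hy
      show I (j (x + y))
      rw [map_add]
      exact hIadd _ _ hx hy
    · show I (j 0)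
      rw [map_zero]
      exact (hI 0).2 ⟨hT0, 0, bb.zero_mem, by simp⟩
    · intro r x hx
      show I (j (r • x))
      rw [smul_eq_mul, map_mul]
      exact hImul _ _ hx
  obtain ⟨b₁, hb₁⟩ : ∃ b₁ : Ideal R, ∀ a, a ∈ b₁ ↔ ∃ x, I x ∧ j b * (x - c x) = j a * s := by
    refine ⟨⟨⟨⟨{a | ∃ x, I x ∧ j b * (x - c x) = j a * s}, ?_⟩, ?_⟩, ?_⟩, fun r => Iff.rfl⟩
    · rintro a a' ⟨x, hx, h⟩ ⟨x', hx', h'⟩
      refine ⟨x + x', hIadd _ _ hx hx', ?_⟩
      rw [map_add, map_add]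
      linear_combination h + h'
    · exact ⟨0, (hI 0).2 ⟨hT0, 0, bb.zero_mem, by simp⟩, by simp⟩
    · rintro r a ⟨x, hx, h⟩
      refine ⟨j r * x, hImul _ _ hx, ?_⟩
      rw [smul_eq_mul, map_mul, map_mul, hcj]
      linear_combination j r * h
  have hb₁le : ∀ a ∈ b₁, a ∈ bb := by
    intro a ha
    obtain ⟨x, hx, h⟩ := (hb₁ a).1 ha
    obtain ⟨-, β, hβ, hβ'⟩ := (hI x).1 hx
    have h1 : j a * s = j β * s := by rw [← h, hβ']
    have h2 := hj (mul_right_cancel₀ hs0 h1)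
    rwa [h2]
  -- elements of `I`
  have hνI : I (j ν) := by
    refine (hI _).2 ⟨hνT, 0, bb.zero_mem, ?_⟩
    rw [hcj, map_zero]
    ring
  have h3I : ∀ t ∈ T, I (3 * t) := by
    intro t ht
    obtain ⟨β, hβ, h⟩ := h3 t (hTS t ht)
    refine (hI _).2 ⟨hTm _ h3S _ ht, β, hβ, ?_⟩
    rw [map_mul, map_ofNat]
    linear_combination h
  -- `(γ / b) w ν` is in `I`
  have hb₁0 : b₁ ≠ ⊥ := by
    intro h0
    obtain ⟨g, hg, hg'⟩ := hwS b hbb
    obtain ⟨h1, h2⟩ := hmulw (j ν) hνI b hbb g hg hg'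
    obtain ⟨e, -, he⟩ := h2 0 ν bb.zero_mem (by rw [hcj, map_zero]; ring)
      (by rw [map_zero]; ring)
    have h4 : b * ν + e * 0 ∈ b₁ := (hb₁ _).2 ⟨_, h1, he⟩
    rw [h0, Ideal.mem_bot, mul_zero, add_zero] at h4
    exact mul_ne_zero hb0 hν h4
  obtain ⟨𝔞, h𝔞⟩ : bb ∣ b₁ := Ideal.dvd_iff_le.2 hb₁le
  have h𝔞0 : 𝔞 ≠ ⊥ := by
    rintro rfl
    apply hb₁0
    rw [h𝔞, Ideal.mul_bot]
  -- claim: `(ν) ≤ 𝔞 n`
  have hclaim : Ideal.span {ν} ≤ 𝔞 * n := by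
    obtain ⟨α, hα, hα0⟩ := Submodule.exists_mem_ne_zero_of_ne_bot h𝔞0
    obtain ⟨f, hf⟩ : 𝔞 ∣ Ideal.span {α} := Ideal.dvd_span_singleton.2 hα
    have hf0 : f ≠ ⊥ := by
      rintro rfl
      rw [Ideal.mul_bot, Ideal.span_singleton_eq_bot] at hf
      exact hα0 hf
    have hA0 := inj0 α hα0
    -- multiplication by `φ / α`
    have hdiv : ∀ φ ∈ f, ∀ x, I x → ∃ y ∈ S, j φ * x = j α * y := by
      intro φ hφ
      have hd : ∀ a ∈ b₁, ∃ β ∈ bb, φ * a = α * β := by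
        intro a ha
        have h1 : φ * a ∈ Ideal.span {α} * bb := by
          have h2 : φ * a ∈ f * b₁ := Ideal.mul_mem_mul hφ ha
          have h3 : f * b₁ = Ideal.span {α} * bb := by rw [hf, h𝔞]; ring
          rwa [h3] at h2
        obtain ⟨β, hβ, hβ'⟩ := Ideal.mem_span_singleton_mul.1 h1
        exact ⟨β, hβ, hβ'.symm⟩
      intro x hx
      obtain ⟨-, β, hβ, hβ'⟩ := (hI x).1 hx
      obtain ⟨p, hp⟩ := hdec x (hIS x hx) β hβ hβ'
      have hβ₁ : β ∈ b₁ := (hb₁ β).2 ⟨x, hx, hβ'⟩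
      obtain ⟨β', hβb, hβe⟩ := hd β hβ₁
      -- `φ p / α` is integral
      have hφp : ∃ p' : R, φ * p = α * p' := by
        have h1 : Ideal.span {φ * p} * bb ≤ Ideal.span {α} * bb := by
          rw [Ideal.span_singleton_mul_le_iff]
          intro γ hγ
          obtain ⟨g, hg, hg'⟩ := hwS γ hγ
          obtain ⟨h1, h2⟩ := hmulw x hx γ hγ g hg hg'
          obtain ⟨e, he, h4⟩ := h2 β p hβ hβ' hp
          obtain ⟨δ, hδ, hδe⟩ := hd _ ((hb₁ _).2 ⟨_, h1, h4⟩)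
          refine Ideal.mem_span_singleton_mul.2 ⟨δ - e * β', bb.sub_mem hδ
            (bb.mul_mem_left _ hβb), ?_⟩
          linear_combination -hδe + e * hβe
        have h2 : Ideal.span {φ * p} ≤ Ideal.span {α} := by
          have h4 : Ideal.span {α} * bb ∣ Ideal.span {φ * p} * bb := Ideal.dvd_iff_le.2 h1
          exact Ideal.dvd_iff_le.1 ((mul_dvd_mul_iff_right (by simpa using hbb0)).1 h4)
        obtain ⟨p', hp'⟩ := Ideal.mem_span_singleton.1 (h2 (Ideal.mem_span_singleton_self _))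
        exact ⟨p', hp'⟩
      obtain ⟨p', hp'⟩ := hφp
      obtain ⟨g, hg, hg'⟩ := hwS β' hβb
      refine ⟨j p' + g, S.add_mem (hjS _) hg, ?_⟩
      apply mul_left_cancel₀ hB0
      have e1 := congrArg j hp'
      have e2 := congrArg j hβe
      rw [map_mul, map_mul] at e1 e2
      linear_combination j φ * hp + j b * e1 + w * e2 - j α * hg'
    have h4 : Ideal.span {ν} * f ≤ Ideal.span {α} * n := by
      rw [Ideal.span_singleton_mul_le_iff]
      intro φ hφ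
      obtain ⟨y₁, hy₁, e₁⟩ := hdiv φ hφ _ hνI
      -- `9 ν φ / α = c g₂`
      obtain ⟨g₂, hg₂T, hg₂⟩ : ∃ g ∈ T, j φ * (9 * j ν) = j α * c g := by
        refine hind (fun x => ∃ g ∈ T, j φ * (9 * x) = j α * c g) ?_ ?_
        · intro x hx x' hx'
          obtain ⟨y₂, hy₂, e₂⟩ := hdiv φ hφ _ (h3I x hx)
          refine ⟨c y₂ * (3 * x'), hTm _ (hcS _ hy₂) _ (hTm _ h3S _ hx'), ?_⟩
          rw [map_mul, hcc, map_mul, map_ofNat]
          linear_combination (3 * c x') * e₂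
        · rintro a b' ⟨g, hg, hg'⟩ ⟨g', hgT, hgT'⟩
          refine ⟨g + g', hTa _ hg _ hgT, ?_⟩
          rw [map_add]
          linear_combination hg' + hgT'
      -- `ν φ / α = c g`
      obtain ⟨g, hgT, hg⟩ : ∃ g ∈ T, j (ν * φ) = j α * c g := by
        refine ⟨(c y₁ * j (2 - ν)) * j ν + j (a₀ ^ 2) * g₂, ?_, ?_⟩
        · exact hTa _ (hTm _ (S.mul_mem (hcS _ hy₁) (hjS _)) _ hνT) _ (hTm _ (hjS _) _ hg₂T)
        · have h5 := congrArg j hν3
          rw [map_add c, map_mul c, map_mul c, map_mul c, hcc, hcj, hcj, hcj]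
          simp only [map_mul, map_add, map_one, map_ofNat, map_sub, map_pow] at h5 ⊢
          have h6 : j ν - j ν * j ν * (2 - j ν) = 9 * j ν * (j a₀) ^ 2 := by
            rw [h5]; ring
          linear_combination (j φ) * h6 + ((2 - j ν) * j ν) * e₁ + (j a₀) ^ 2 * hg₂
      have hgc : j (ν * φ) = j α * g := by
        have h5 := congrArg c hg
        rw [hcj, map_mul c, hcj, hcc] at h5
        exact h5
      obtain ⟨n', hn'⟩ := hfix g (hTS g hgT) (by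
        apply mul_left_cancel₀ hA0
        rw [← hg, hgc])
      refine Ideal.mem_span_singleton_mul.2 ⟨n', (hn n').2 ?_, ?_⟩
      · rw [hn']
        refine (hI _).2 ⟨hgT, 0, bb.zero_mem, ?_⟩
        rw [← hn', hcj, map_zero]
        ring
      · apply hj
        rw [hgc, ← hn', map_mul]
    have h5 : Ideal.span {ν} * f ≤ (𝔞 * n) * f := by
      have h6 : (𝔞 * n) * f = Ideal.span {α} * n := by rw [hf]; ring
      rw [h6]
      exact h4
    have h6 : (𝔞 * n) * f ∣ Ideal.span {ν} * f := Ideal.dvd_iff_le.2 h5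
    exact Ideal.dvd_iff_le.1 ((mul_dvd_mul_iff_right (by simpa using hf0)).1 h6)
  -- `z₁`
  obtain ⟨z₁, hz₁, hz₁0, hz₁s⟩ : ∃ z₁ ∈ b₁, z₁ ≠ 0 ∧ 𝔞 * b₁ ⊔ Ideal.span {z₁} = b₁ := by
    by_cases h1 : 𝔞 = ⊤
    · obtain ⟨z₁, hz₁, hz₁0⟩ := Submodule.exists_mem_ne_zero_of_ne_bot hb₁0
      refine ⟨z₁, hz₁, hz₁0, ?_⟩
      rw [h1, Ideal.top_mul]
      exact sup_eq_left.2 ((Ideal.span_singleton_le_iff_mem _).2 hz₁)
    · have h2 : 𝔞 * b₁ ≤ b₁ := Ideal.mul_le_right.trans le_rfl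
      have h4 : 𝔞 * b₁ ≠ ⊥ := mul_ne_zero h𝔞0 hb₁0
      obtain ⟨z₁, hz₁⟩ := IsDedekindDomain.exists_sup_span_eq h2 h4
      have h5 : z₁ ∈ b₁ := by
        rw [← hz₁]
        exact Ideal.mem_sup_right (Ideal.mem_span_singleton_self _)
      refine ⟨z₁, h5, ?_, hz₁⟩
      rintro rfl
      apply h1
      have h6 : 𝔞 * b₁ = 1 * b₁ := by
        rw [one_mul]
        have h7 : 𝔞 * b₁ ⊔ Ideal.span {(0 : R)} = 𝔞 * b₁ := by simp
        rw [h7] at hz₁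
        exact hz₁
      rw [← Ideal.one_eq_top]
      exact mul_right_cancel₀ hb₁0 h6
  obtain ⟨𝔢, h𝔢⟩ : b₁ ∣ Ideal.span {z₁} := Ideal.dvd_span_singleton.2 hz₁
  have hco : 𝔞 ⊔ 𝔢 = ⊤ := by
    have h1 : b₁ * (𝔞 ⊔ 𝔢) = b₁ * 1 := by
      rw [Ideal.mul_sup, ← h𝔢, mul_comm b₁ 𝔞, hz₁s, mul_one]
    rw [← Ideal.one_eq_top]
    exact mul_left_cancel₀ hb₁0 h1
  obtain ⟨a, ha, e, he, hae⟩ := Submodule.mem_sup.1
    (show (1 : R) ∈ 𝔞 ⊔ 𝔢 by rw [hco]; exact Submodule.mem_top)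
  obtain ⟨z₂, hz₂⟩ := IsDedekindDomain.exists_eq_span_pair hz₁ hz₁0
  have hz₂b : z₂ ∈ b₁ := by rw [hz₂]; exact Ideal.subset_span (by simp)
  obtain ⟨c₁, hc₁, c₂, hc₂, hsum⟩ : ∃ c₁ ∈ 𝔢, ∃ c₂ ∈ 𝔢, z₁ = z₁ * c₁ + z₂ * c₂ := by
    apply mem_pair_mul
    rw [← hz₂, ← h𝔢]
    exact Ideal.mem_span_singleton_self _
  obtain ⟨x₁, hx₁, hx₁e⟩ := (hb₁ z₁).1 hz₁
  obtain ⟨x₂, hx₂, hx₂e⟩ := (hb₁ z₂).1 hz₂b
  have hZ0 := inj0 z₁ hz₁0
  obtain ⟨E, hE⟩ : ∃ E : F, j z₁ * E = j b * (j c₁ * x₁ + j c₂ * x₂) :=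
    ⟨j b * (j c₁ * x₁ + j c₂ * x₂) / j z₁, by field_simp⟩
  have hEc : E - c E = s := by
    apply mul_left_cancel₀ hZ0
    have h1 := congrArg c hE
    simp only [map_mul, map_add, hcj] at h1
    have h2 := congrArg j hsum
    rw [map_add, map_mul, map_mul] at h2
    linear_combination hE - h1 + j c₁ * hx₁e + j c₂ * hx₂e - s * h2
  -- `(a₁ / b) E` is in `I`
  have hEI : ∀ a₁ ∈ b₁, ∃ x, I x ∧ j b * x = j a₁ * E := by
    intro a₁ ha₁
    have h1 : ∀ r ∈ 𝔢, ∃ d, a₁ * r = z₁ * d := by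
      intro r hr
      have h2 : a₁ * r ∈ Ideal.span {z₁} := by
        rw [h𝔢]
        exact Ideal.mul_mem_mul ha₁ hr
      exact Ideal.mem_span_singleton.1 h2
    obtain ⟨d₁, hd₁⟩ := h1 c₁ hc₁
    obtain ⟨d₂, hd₂⟩ := h1 c₂ hc₂
    refine ⟨j d₁ * x₁ + j d₂ * x₂, hIadd _ _ (hImul _ _ hx₁) (hImul _ _ hx₂), ?_⟩
    apply mul_left_cancel₀ hZ0
    have e1 := congrArg j hd₁
    have e2 := congrArg j hd₂
    rw [map_mul, map_mul] at e1 e2
    linear_combination -(j b * x₁) * e1 - (j b * x₂) * e2 - j a₁ * hE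
  have hIsub : ∀ x y, I x → I y → I (x - y) := by
    intro x y hx hy
    have h1 := hImul (-1) y hy
    have h2 := hIadd x _ hx h1
    have h4 : x + j (-1) * y = x - y := by rw [map_neg, map_one]; ring
    rwa [h4] at h2
  -- coordinates
  have hcoor : ∀ x, I x → ∃ X Y : R, 2 * j b * x = j X + j Y * s := by
    intro x hx
    obtain ⟨-, β, hβ, hβ'⟩ := (hI x).1 hx
    obtain ⟨T, hT⟩ := hfix (x + c x) (S.add_mem (hIS x hx) (hcS x (hIS x hx))) (by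
      rw [map_add, hcc, add_comm])
    refine ⟨b * T, β, ?_⟩
    rw [map_mul, hT]
    linear_combination hβ'
  -- `U`, `V`
  obtain ⟨y₁, hy₁, hy₁e⟩ := hEI z₁ hz₁
  obtain ⟨V, hV⟩ : ∃ V : F, j b * j z₁ * V = j b * j ν * j e - j a * j z₁ * E :=
    ⟨(j b * j ν * j e - j a * j z₁ * E) / (j b * j z₁), by field_simp⟩
  have hU : I (j ν + y₁) := hIadd _ _ hνI hy₁
  have hVI : ∀ β ∈ bb, I (j β * V) := by
    intro β hβ
    obtain ⟨y₂, hy₂, hy₂e⟩ := hEI (β * a) (by rw [h𝔞]; exact Ideal.mul_mem_mul hβ ha)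
    obtain ⟨n', hn', hn'e⟩ : ∃ n' ∈ n, z₁ * n' = β * e * ν := by
      have h1 : β * e * ν ∈ Ideal.span {z₁} * n := by
        have h2 : β * e * ν ∈ (bb * 𝔢) * (𝔞 * n) := Ideal.mul_mem_mul (Ideal.mul_mem_mul hβ he)
          (hclaim (Ideal.mem_span_singleton_self _))
        have h4 : (bb * 𝔢) * (𝔞 * n) = Ideal.span {z₁} * n := by rw [h𝔢, h𝔞]; ring
        rwa [h4] at h2
      exact Ideal.mem_span_singleton_mul.1 h1
    have h1 : j β * V = j n' - y₂ := by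
      apply mul_left_cancel₀ (mul_ne_zero hB0 hZ0)
      have e1 := congrArg j hn'e
      simp only [map_mul] at e1 hy₂e
      linear_combination j β * hV - j b * e1 + j z₁ * hy₂e
    rw [h1]
    exact hIsub _ _ ((hn n').1 hn') hy₂
  obtain ⟨X, Y, hXY⟩ := hcoor _ hU
  obtain ⟨X', Y', hXY'⟩ := hcoor _ (hVI b hbb)
  refine ⟨j ν + y₁, V, X, Y, X', Y', ((hI _).1 hU).1, fun β hβ => ((hI _).1 (hVI β hβ)).1, ?_, hXY,
    by rw [← hXY']; ring⟩
  have hcV := congrArg c hV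
  have hcy := congrArg c hy₁e
  have hae' := congrArg j hae
  simp only [map_mul, map_sub, map_add, map_one, hcj] at hcV hcy hae'
  rw [map_add, hcj]
  apply mul_left_cancel₀ (mul_ne_zero hB0 hZ0)
  linear_combination (j b * (j ν + y₁)) * hcV - (j b * (j ν + c y₁)) * hV +
    (j b * j ν * j e - j a * j z₁ * c E) * hy₁e - (j b * j ν * j e - j a * j z₁ * E) * hcy +
    (j b * j ν * j z₁ * (j a + j e)) * hEc + (j b * j ν * j z₁ * s) * hae'

end Pool.Agent.LeoD.H61
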