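import Pool.Agent.LeoD.AlgStmts

/-!
# Squad LEOD, module STD: assembly of the algebraic part
-/

set_option autoImplicit false

open NumberField NumberField.InfinitePlace NumberField.mixedEmbedding IsDedekindDomain Module
  MeasureTheory Filter Topology
open Pool.Agent.Helper85_Leo Pool.Agent.LeoK Pool.Agent.LeoG Pool.Agent.LeoC
open Pool.Agent.Leo3 (Om InLoc FixF)

open scoped Classical

namespace Pool.Agent.LeoD.H61

/-- the coercion of an element of `𝓞 k` -/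
lemma coeA {k K : Type} [Field k] [NumberField k] [Field K] [NumberField K] [Algebra k K]
    (a : 𝓞 k) : ((algebraMap (𝓞 k) (𝓞 K) a : 𝓞 K) : K) = algebraMap k K (a : k) := rfl

/-- there is a prime above 3 -/
lemma exists_three (k : Type) [Field k] [NumberField k] :
    ∃ p : HeightOneSpectrum (𝓞 k), (3 : 𝓞 k) ∈ p.asIdeal := by
  have h1 : ¬ IsUnit (3 : 𝓞 k) := by
    intro h
    have h2 : IsUnit ((Algebra.norm ℤ) (3 : 𝓞 k)) := h.map _
    have h3 : (3 : 𝓞 k) = algebraMap ℤ (𝓞 k) 3 := by simp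
    rw [h3, Algebra.norm_algebraMap] at h2
    have h4 : IsUnit (3 : ℤ) := by
      have h5 : 0 < finrank ℤ (𝓞 k) := by
        rw [RingOfIntegers.rank]
        exact finrank_pos
      exact (isUnit_pow_iff h5.ne').1 h2
    rw [Int.isUnit_iff] at h4
    omega
  obtain ⟨I, hI, h3⟩ := exists_max_ideal_of_mem_nonunits (mem_nonunits_iff.2 h1)
  have hI0 : I ≠ ⊥ := by
    rintro rfl
    rw [Ideal.mem_bot] at h3
    exact absurd h3 (by norm_num)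
  exact ⟨⟨I, hI.isPrime, hI0⟩, h3⟩

/-- the extension of an ideal of `𝓞 k` is stable under the conjugation -/
lemma conj_mem {k K : Type} [Field k] [NumberField k] [Field K] [NumberField K] [Algebra k K]
    (c : K ≃ₐ[k] K) (I : Ideal (𝓞 k)) (x y : 𝓞 K) (hxy : (y : K) = c (x : K))
    (hx : x ∈ I.map (algebraMap (𝓞 k) (𝓞 K))) : y ∈ I.map (algebraMap (𝓞 k) (𝓞 K)) := by
  obtain ⟨σ, hσ⟩ : ∃ σ : 𝓞 K →+* 𝓞 K, ∀ x : 𝓞 K, ((σ x : 𝓞 K) : K) = c (x : K) :=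
    ⟨(RingOfIntegers.mapRingHom (c : K →+* K)), fun x => rfl⟩
  have h1 : y = σ x := by
    apply RingOfIntegers.ext
    rw [hσ, hxy]
  rw [h1]
  have h2 : I.map (algebraMap (𝓞 k) (𝓞 K)) ≤ (I.map (algebraMap (𝓞 k) (𝓞 K))).comap σ := by
    rw [Ideal.map_le_iff_le_comap]
    intro a ha
    rw [Ideal.mem_comap, Ideal.mem_comap]
    have h3 : σ (algebraMap (𝓞 k) (𝓞 K) a) = algebraMap (𝓞 k) (𝓞 K) a := by
      apply RingOfIntegers.ext
      rw [hσ]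
      rw [coeA, c.commutes]
    rw [h3]
    exact Ideal.mem_map_of_mem _ ha
  exact h2 hx

theorem std (hqrd : QrdStmt) (hcnj : CnjStmt) (hdvp : DvpStmt) (hapt : AptStmt) (hlat : LatStmt)
    (hfrm : FrmStmt) (hflc : FlcStmt) (hhcy : HcyStmt) (hfla : FlaStmt) (hflb : FlbStmt) :
    StdStmt := by
  intro k _ _ M
  obtain ⟨M', hM'⟩ : ∃ M' : ℕ, M' = M + 2 * finrank ℚ k + 2 := ⟨_, rfl⟩
  obtain ⟨P, Q, hPQ0, hmain⟩ := hapt k M'
  obtain ⟨i, hi⟩ : ∃ i : ℕ, 2 * i = 3 ^ M' + 1 := by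
    have h1 : Odd (3 ^ M') := Odd.pow (by decide)
    obtain ⟨j, hj⟩ := h1
    exact ⟨j + 1, by omega⟩
  have hi2 : ∀ p : HeightOneSpectrum (𝓞 k), (3 : 𝓞 k) ∈ p.asIdeal →
      2 * (i : 𝓞 k) - 1 ∈ p.asIdeal ^ M' := by
    intro p hp
    have h1 : 2 * (i : 𝓞 k) - 1 = 3 ^ M' := by
      have h2 : ((2 * i : ℕ) : 𝓞 k) = ((3 ^ M' + 1 : ℕ) : 𝓞 k) := by rw [hi]
      push_cast at h2
      rw [h2]
      ring
    rw [h1]
    exact Ideal.pow_mem_pow hp _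
  have hle : ∀ p : HeightOneSpectrum (𝓞 k), p.asIdeal ^ M' ≤ p.asIdeal ^ M := fun p =>
    Ideal.pow_le_pow_right (by omega)
  refine ⟨fun p => hPQ (P p) (Q p) (i : 𝓞 k), fun p hp =>
    hhcy k p M _ _ _ (hle p (hPQ0 p hp)) (hle p (hi2 p hp)), ?_⟩
  intro K _ _ _ B m r h2 hr hnr _ hF hLk hLK
  obtain ⟨s, c, hs, hext⟩ := hcnj k K m r h2 hr hnr
  obtain ⟨z, t, ν, hz, hz3, ht, hloc⟩ := hmain K m s c hext hLk hLK
  obtain ⟨p₀, hp₀⟩ := exists_three k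
  have hν0 : ν ≠ 0 := by
    rintro rfl
    have h1 := (hloc p₀ hp₀).1
    have h2 : (0 - 1 : 𝓞 k) ∈ p₀.asIdeal :=
      Ideal.pow_le_self (by omega) h1
    have h3 : (1 : 𝓞 k) ∈ p₀.asIdeal := by
      have := p₀.asIdeal.neg_mem h2
      simpa using this
    exact p₀.isPrime.ne_top ((Ideal.eq_top_iff_one _).2 h3)
  have hν3 : (3 : 𝓞 k) ∣ ν - 1 := by
    refine hdvp.2.1 k (ν - 1) fun p hp => ?_
    exact Ideal.pow_le_pow_right (by omega) (hloc p hp).1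
  obtain ⟨U, V, X, Y, X', Y', hU, hV, hUV, hXY, hXY'⟩ := hlat k K B m s c hext hF t ν ht hν3 hν0
  obtain ⟨F, hFo, hFi, hFm, hF0, hF1, hF2, hF3⟩ := hfrm k K B m s c hext
    (hqrd k K B m s c hext hF).1 z t ν hz hz3 ht hν0 U V hU hV hUV
  obtain ⟨hdet, W, hW, hco⟩ := hflc k K B m s c hext z t ν hz ht hν0 U V X Y X' Y' hUV hXY hXY'
    F hFo
  refine ⟨F, hFi, hFm, hF0, hF1, hF2, hF3, fun p hp => ?_⟩
  obtain ⟨hν1, hZT⟩ := hloc p hp
  rcases hZT with h1 | ⟨μ, hμ, h1⟩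
  · left
    have h2 : W - 1 ∈ (p.asIdeal ^ M').map (algebraMap (𝓞 k) (𝓞 K)) := by
      refine conj_mem c _ _ _ ?_ h1
      have h3 : ((W - 1 : 𝓞 K) : K) = (W : K) - 1 := rfl
      have h4 : (((z : 𝓞 K) * t ^ 3 - 1 : 𝓞 K) : K) = ((z : 𝓞 K) : K) * (t : K) ^ 3 - 1 := rfl
      rw [h3, h4, map_sub, map_one, hW]
    rw [hM'] at h1 h2
    obtain ⟨h3, x, y, h4, h5⟩ := hfla k K B m s c hext hF p M hp ν X Y X' Y' _ W F
      (Ideal.pow_le_self (by omega) hν1) hdet hco h1 h2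
    exact ⟨h3, x, y, h4, Ideal.mem_sup_right h5⟩
  · right
    have h2 : 3 * algebraMap (𝓞 k) (𝓞 K) μ * (W - algebraMap (𝓞 k) (𝓞 K) (P p)) +
        algebraMap (𝓞 k) (𝓞 K) (Q p) * s ∈ (p.asIdeal ^ M').map (algebraMap (𝓞 k) (𝓞 K)) := by
      refine conj_mem c _ _ _ ?_ h1
      have h3 : ((3 * algebraMap (𝓞 k) (𝓞 K) μ * (W - algebraMap (𝓞 k) (𝓞 K) (P p)) +
          algebraMap (𝓞 k) (𝓞 K) (Q p) * s : 𝓞 K) : K) = 3 * algebraMap k K (μ : k) *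
            ((W : K) - algebraMap k K (P p : k)) + algebraMap k K (Q p : k) * s := rfl
      have h4 : ((3 * algebraMap (𝓞 k) (𝓞 K) μ * ((z : 𝓞 K) * t ^ 3 -
          algebraMap (𝓞 k) (𝓞 K) (P p)) - algebraMap (𝓞 k) (𝓞 K) (Q p) * s : 𝓞 K) : K) =
            3 * algebraMap k K (μ : k) * (((z : 𝓞 K) : K) * (t : K) ^ 3 -
              algebraMap k K (P p : k)) - algebraMap k K (Q p : k) * s := rfl
      rw [h3, h4, map_sub, map_mul, map_mul, map_sub, map_mul c (algebraMap k K (Q p : k)),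
        c.commutes, c.commutes, c.commutes, hext.conj, hW, map_ofNat]
      ring
    rw [hM'] at h1 h2 hμ hν1
    have hi3 := hi2 p hp
    rw [hM'] at hi3
    exact hflb k K B m s c hext hF p M hp ν X Y X' Y' _ W F hν1 hdet hco (P p) (Q p) i μ hi3 hμ
      h1 h2

end Pool.Agent.LeoD.H61
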